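import Pool.Agent.H.MP_9fb7a1_lc.C

set_option autoImplicit false

namespace Pool.Agent.Results.MP_9fb7a1_lc.Yes

open Pool.Agent.H.MP_9fb7a1_lc

/-- On the c.e. degrees, attractive and almost everywhere dominating coincide. -/
theorem result (A : ℕ → Bool) (hA : CEDeg A) : Attractive A ↔ AEDom A :=
  ⟨dom_of hA, attr_of⟩

end Pool.Agent.Results.MP_9fb7a1_lc.Yes
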